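import Mathlib

/-! Locally univalent absolutely convergent power series with a boundary curve of positive area
(MP_09c31c_an): definitions and statements of the steps (project PC). -/

set_option autoImplicit false

open Filter Topology Metric Complex

namespace Pool.Agent.N343.PC

/-- Wiener norm of a coefficient sequence -/
noncomputable def nrm (c : ℕ → ℂ) : ℝ := ∑' N, ‖c N‖
/-- the function with the coefficients `c` -/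
noncomputable def gg (c : ℕ → ℂ) (z : ℂ) : ℂ := ∑' N, c N * z ^ N
/-- its primitive -/
noncomputable def FF (c : ℕ → ℂ) (z : ℂ) : ℂ := ∑' N, c N / ((N : ℂ) + 1) * z ^ (N + 1)
/-- the coefficients of `exp (lam z^n)` -/
noncomputable def ee (n : ℕ) (lam : ℝ) (m : ℕ) : ℂ :=
  if n ∣ m then (lam : ℂ) ^ (m / n) / ((m / n).factorial : ℂ) else 0
/-- the coefficients of `g(z) exp (lam z^n)` -/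
noncomputable def mul (c : ℕ → ℂ) (n : ℕ) (lam : ℝ) (N : ℕ) : ℂ :=
  ∑ p ∈ Finset.HasAntidiagonal.antidiagonal N, c p.1 * ee n lam p.2

/-- the window property -/
def Win (c : ℕ → ℂ) (E : Set ℂ) (d m : ℝ) : Prop :=
  ∀ w ∈ E, ∃ z : ℂ, ‖z‖ = 1 ∧ (9 / 10) * d ≤ ‖FF c z - w‖ ∧ ‖FF c z - w‖ ≤ (11 / 10) * d ∧
    m ≤ ‖gg c z‖ ∧ ‖gg c z‖ ≤ 2 * m

def S_ALG : Prop := ∀ (c : ℕ → ℂ) (n : ℕ) (lam : ℝ), Summable (fun N => ‖c N‖) → 1 ≤ n →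
  0 < lam → Summable (fun N => ‖mul c n lam N‖) ∧ nrm (mul c n lam) ≤ nrm c * Real.exp lam ∧
  (∀ z : ℂ, ‖z‖ ≤ 1 → gg (mul c n lam) z = gg c z * Complex.exp (lam * z ^ n)) ∧
  Summable (fun N : ℕ => ‖(mul c n lam N - c N) / ((N : ℂ) + 1)‖) ∧
  ∑' N : ℕ, ‖(mul c n lam N - c N) / ((N : ℂ) + 1)‖ ≤ 2 * (Real.exp lam / (n * lam)) * nrm c

def S_ERR : Prop := ∀ (c : ℕ → ℂ) (n : ℕ) (lam : ℝ), Summable (fun N => ‖c N‖) → 1 ≤ n →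
  1 ≤ lam → ∀ z : ℂ, ‖z‖ = 1 →
  ‖FF (mul c n lam) z - FF c z -
    z * gg c z * ((Real.exp lam / (n * lam) : ℝ) * (Complex.exp (lam * (z ^ n - 1)) / z ^ n))‖
    ≤ Real.exp lam / (n * lam) * (5 * nrm c / lam + ∑' N, ‖c (N + n)‖)

def S_SPI : Prop := ∀ ε : ℝ, 0 < ε → ∃ L₀ : ℝ, ∀ lam : ℝ, L₀ ≤ lam → ∀ A : ℂ, 1 / 5 ≤ ‖A‖ →
  ‖A‖ ≤ 3 / 5 → ∃ u : ℂ, ‖u‖ = 1 ∧ ‖Complex.exp (lam * (u - 1)) / u - A‖ ≤ ε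

def S_ROOT : Prop := ∀ n : ℕ, 1 ≤ n → ∀ u z' : ℂ, ‖u‖ = 1 → ‖z'‖ = 1 →
  ∃ z : ℂ, ‖z‖ = 1 ∧ z ^ n = u ∧ ‖z - z'‖ ≤ 2 * Real.pi / n

def S_LAM : Prop := ∀ τ : ℝ, 0 < τ → ∀ M : ℝ, ∃ N₀ : ℕ, ∀ n : ℕ, N₀ ≤ n →
  ∃ lam : ℝ, M ≤ lam ∧ 1 ≤ lam ∧ lam ≤ n ∧ Real.exp lam = τ * (n * lam)

def S_STEP : Prop := ∀ (c : ℕ → ℂ) (E : Set ℂ) (d m : ℝ), Summable (fun N => ‖c N‖) → 0 < d →
  0 < m → Win c E d m → ∀ ε : ℝ, 0 < ε → ∀ N₀ : ℕ, ∃ n : ℕ, N₀ ≤ n ∧ 1 ≤ n ∧ ∃ lam : ℝ,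
    1 ≤ lam ∧ lam ≤ n ∧
    (∀ w ∈ E, ∃ z : ℂ, ‖z‖ = 1 ∧ ‖FF (mul c n lam) z - w‖ ≤ ε ∧
      (2 / 5) * m * Real.exp lam ≤ ‖gg (mul c n lam) z‖ ∧
      ‖gg (mul c n lam) z‖ ≤ (4 / 5) * m * Real.exp lam) ∧
    ∑' N : ℕ, ‖(mul c n lam N - c N) / ((N : ℂ) + 1)‖ ≤ 4 * (d / m) * nrm c

def S_ITER : Prop := ∃ (c : ℕ → ℕ → ℂ) (n : ℕ → ℕ) (lam : ℕ → ℝ), StrictMono n ∧
  (∀ k, 1 ≤ n k ∧ 0 ≤ lam k ∧ lam k ≤ n k) ∧ (∀ k, Summable (fun N => ‖c k N‖)) ∧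
  (∀ k, ∀ z : ℂ, ‖z‖ ≤ 1 →
    gg (c k) z = Complex.exp (∑ i ∈ Finset.range k, (lam i : ℂ) * z ^ (n i))) ∧
  (∀ k, Summable (fun N : ℕ => ‖(c (k + 1) N - c k N) / ((N : ℂ) + 1)‖) ∧
    ∑' N : ℕ, ‖(c (k + 1) N - c k N) / ((N : ℂ) + 1)‖ ≤ 2 * (1 / 4) ^ k) ∧
  (∀ k, ∀ w ∈ closedBall (1 : ℂ) (1 / 20), ∃ z : ℂ, ‖z‖ = 1 ∧ ‖FF (c k) z - w‖ ≤ (1 / 10) ^ k)

/-- the frozen statement S03755 -/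
def S_FIN : Prop :=
  ∃ a : ℕ → ℂ, Summable (fun n => ‖a n‖) ∧
      (∀ z : ℂ, ‖z‖ < 1 → deriv (fun w : ℂ => ∑' n, a n * w ^ n) z ≠ 0) ∧
      MeasureTheory.volume ((fun w : ℂ => ∑' n, a n * w ^ n) '' Metric.sphere (0 : ℂ) 1) ≠ 0

end Pool.Agent.N343.PC
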